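import Pool.Agent.KS6_17.PG3.Exi

/-!
# The minimum positive deficiency of complete partial packings of PG(3, q), for every q

For every prime power `q ≥ 3`, even or odd, the minimum positive deficiency `m(q)` equals `2`.

Construction, uniform in `q`: let `L` be the quadratic extension of `K = GF(q)` and `V = L × L`.
Johnson's parallelism consists of the regular spread `Σ` of all lines `y = m x` and of the
`q ^ 2 + q` Hall spreads `S(u, e)`.  Two switches are made in it: the pair `Σ`, `S(ω, 0)` is
replaced by a regular spread `Σ*` and a Hall spread with the same lines, and the `q - 1` spreads
`S(1, e)`, `e` not in `K`, are replaced by `q - 1` Hall spreads `H_s` with the same lines.  Then a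
regular spread contained in the union of `Σ*`, `S(1, 0)` and `H_1` replaces these three, and the
lines left over contain a closed walk of length five of consecutively meeting lines, so no spread
is disjoint from the `q ^ 2 + q - 1` chosen ones.
-/

namespace Pool.Agent.Results.MP_9569f1_co.EveryPrimePower

open Pool.Agent.KS6_17.PG3

theorem result :
    ∀ (K : Type) [Field K] [Fintype K], 3 ≤ Fintype.card K →
      IsLeast (positiveDeficiencies K) 2 := by
  intro K _ _ h3
  refine ⟨⟨by norm_num, ?_⟩, ?_⟩
  · by_cases h2 : (2 : K) = 0
    · exact exists_even K h2 h3
    · apply exists_odd K
      have hchar : ringChar K ≠ 2 := by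
        intro h
        apply h2
        have := ringChar.Nat.cast_ringChar (R := K)
        rw [h] at this
        exact_mod_cast this
      rw [Nat.odd_iff]
      exact FiniteField.odd_card_of_char_ne_two hchar
  · rintro d ⟨hd, P, hP⟩
    by_contra hlt
    have h1 : d = 1 := by omega
    subst h1
    exact not_deficiency_one (by simp) P hP

end Pool.Agent.Results.MP_9569f1_co.EveryPrimePower
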